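import Mathlib
import Pool.Agent.CA.WordBL
import Pool.Agent.CA.ThreePoint
import Pool.Agent.CA92.Bags

/-!
Bags from the word theorem (helper64, notes 3 (3) and notes 4, translation), for the Lean proof of Theorem A.
INTERFACE between helper92 (bags) and helper5 (Kempe part and gluing).

A strip `[x, y]` of positions.  The sets `D`, `C`, `O` consist of intervals `[l v, r v]` of positions: those of `D`
contain `x`, those of `C` contain `y`, those of `O` are strictly inside.  `φ` is a proper colouring, injective on `D ∪ C`.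
-/

set_option autoImplicit false

namespace Pool.Agent.CA5

open Finset
open scoped Classical

/-- a coloured strip -/
structure Strip {V : Type} (G : SimpleGraph V) (l r φ : V → ℕ) (D C O : Finset V) (x y : ℕ) : Prop where
  hDC : Disjoint D C
  hDO : Disjoint D O
  hCO : Disjoint C O
  lD : ∀ v ∈ D, l v = x
  rD : ∀ v ∈ D, x ≤ r v ∧ r v < y
  lC : ∀ v ∈ C, x < l v ∧ l v ≤ y
  rC : ∀ v ∈ C, r v = y
  lrO : ∀ v ∈ O, x < l v ∧ l v ≤ r v ∧ r v < y
  /-- endpoints are distinct: no interval starts right after the end of another one -/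
  dist : ∀ u ∈ D ∪ O, ∀ v ∈ C ∪ O, l v ≠ r u + 1
  /-- intersecting intervals are adjacent -/
  adj : ∀ u ∈ D ∪ C ∪ O, ∀ v ∈ D ∪ C ∪ O, u ≠ v → ∀ t, l u ≤ t → t ≤ r u → l v ≤ t → t ≤ r v → G.Adj u v
  /-- the colouring is proper -/
  prop : ∀ u ∈ D ∪ C ∪ O, ∀ v ∈ D ∪ C ∪ O, G.Adj u v → φ u ≠ φ v
  /-- `φ` is injective on `D ∪ C` -/
  inj : ∀ u ∈ D ∪ C, ∀ v ∈ D ∪ C, φ u = φ v → u = v

/-- the bags: `d` and `c` are separated only if their two colours are both idle at some position -/
theorem bags {V : Type} [Fintype V] {G : SimpleGraph V} {l r φ : V → ℕ} {D C O : Finset V} {x y : ℕ}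
    (h : Strip G l r φ D C O x y) :
    ∃ B : V → Set V,
      (∀ v ∈ D ∪ C, v ∈ B v) ∧
      (∀ v ∈ D ∪ C, ∀ w ∈ B v, w = v ∨ (w ∈ O ∧ ∃ u ∈ D ∪ C, φ w = φ u)) ∧
      (∀ v ∈ D ∪ C, (G.induce (B v)).Connected) ∧
      (∀ u ∈ D ∪ C, ∀ v ∈ D ∪ C, u ≠ v → Disjoint (B u) (B v)) ∧
      (∀ d ∈ D, ∀ c ∈ C,
        (∀ t, x ≤ t → t ≤ y → ∃ w ∈ D ∪ C ∪ O, (φ w = φ d ∨ φ w = φ c) ∧ l w ≤ t ∧ t ≤ r w) →
        ∃ u ∈ B d, ∃ w ∈ B c, G.Adj u w) := by
  have hW : ∀ v, (v ∈ (↑O : Set V) ∨ v ∈ (↑D : Set V) ∨ v ∈ (↑C : Set V)) → v ∈ D ∪ C ∪ O := by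
    intro v hv
    simp only [mem_coe] at hv
    simp only [mem_union]
    tauto
  have hlr : ∀ v, (v ∈ (↑O : Set V) ∨ v ∈ (↑D : Set V) ∨ v ∈ (↑C : Set V)) → x ≤ l v ∧ l v ≤ r v ∧ r v ≤ y := by
    rintro v (hv | hv | hv)
    · have := h.lrO v hv; omega
    · have h1 := h.rD v hv; have h2 := h.lD v hv; omega
    · have h1 := h.rC v hv; have h2 := h.lC v hv; omega
  let L : CA92.Line V :=
    { l := fun v => (l v : ℤ)
      r := fun v => (r v : ℤ)
      p := x
      q := y
      O := ↑O
      D := ↑D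
      C := ↑C
      φ := φ
      lr := fun v hv => by have := hlr v hv; omega
      pl := fun v hv => by have := hlr v hv; omega
      rq := fun v hv => by have := hlr v hv; omega
      Dp := fun v hv => by have := h.lD v hv; omega
      Cq := fun v hv => by have := h.rC v hv; omega
      dist := fun u v hu hv => by
        have h1 := hlr u hu
        have h2 := hlr v hv
        rcases hu with hu | hu | hu
        · rcases hv with hv | hv | hv
          · have := h.dist u (mem_union_right _ hu) v (mem_union_right _ hv); omega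
          · have := h.lD v hv; have := h.lrO u hu; omega
          · have := h.dist u (mem_union_right _ hu) v (mem_union_left _ hv); omega
        · rcases hv with hv | hv | hv
          · have := h.dist u (mem_union_left _ hu) v (mem_union_right _ hv); omega
          · have := h.lD v hv; omega
          · have := h.dist u (mem_union_left _ hu) v (mem_union_left _ hv); omega
        · have := h.rC u hu; omega
      disj := fun u v hu hv huv hc => by
        by_contra hcon
        push Not at hcon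
        have h1 := hlr u hu
        have h2 := hlr v hv
        have hadj := h.adj u (hW u hu) v (hW v hv) huv (max (l u) (l v)) (by omega) (by omega) (by omega) (by omega)
        exact h.prop u (hW u hu) v (hW v hv) hadj hc
      DC := fun u v hu hv hc => by
        have := h.inj u (mem_union_left _ hu) v (mem_union_right _ hv) hc
        subst this
        exact disjoint_left.1 h.hDC hu hv
      DO := fun v hv hv' => disjoint_left.1 h.hDO hv hv'
      CO := fun v hv hv' => disjoint_left.1 h.hCO hv hv' }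
  have hWL : ∀ v ∈ L.W, v ∈ D ∪ C ∪ O := fun v hv => hW v hv
  obtain ⟨B, h1, h2, h3, h4, h5⟩ := CA92.Line.bags_line (G := G) L (by
    intro u hu v hv huv t e1 e2 e3 e4
    change (l u : ℤ) ≤ t at e1
    change t ≤ (r u : ℤ) at e2
    change (l v : ℤ) ≤ t at e3
    change t ≤ (r v : ℤ) at e4
    exact h.adj u (hWL u hu) v (hWL v hv) huv t.toNat (by omega) (by omega) (by omega) (by omega))
  have hDC : ∀ v, v ∈ D ∪ C → v ∈ L.D ∨ v ∈ L.C := fun v hv => mem_union.1 hv
  refine ⟨B, fun v hv => h1 v (hDC v hv), ?_, fun v hv => h3 v (hDC v hv),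
    fun u hu v hv huv => h4 u (hDC u hu) v (hDC v hv) huv, ?_⟩
  · intro v hv w hw
    rcases h2 v (hDC v hv) w hw with h6 | ⟨h6, u, hu, h7⟩
    · exact Or.inl h6
    · exact Or.inr ⟨h6, u, mem_union.2 hu, h7⟩
  · intro d hd c hc hcov
    refine h5 d hd c hc ?_
    intro t ht1 ht2
    change (x : ℤ) ≤ t at ht1
    change t ≤ (y : ℤ) at ht2
    obtain ⟨w, hw, hwc, hw1, hw2⟩ := hcov t.toNat (by omega) (by omega)
    refine ⟨w, ?_, hwc, ?_, ?_⟩
    · simp only [mem_union] at hw
      rcases hw with (hw | hw) | hw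
      · exact Or.inr (Or.inl hw)
      · exact Or.inr (Or.inr hw)
      · exact Or.inl hw
    · show (l w : ℤ) ≤ t; omega
    · show t ≤ (r w : ℤ); omega

end Pool.Agent.CA5
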