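import Mathlib
import Pool.Agent.CA72.MinCE

/-!
The Kempe part of Theorem A (helper64, notes 3 for MP_b47bfb_co), abstract form: a separator `X ∪ Y` which is the union of
two cliques and which has at most `k` vertices is impossible in a contraction-critical graph when the bags exist.
-/

set_option autoImplicit false

namespace Pool.Agent.CA5

open Finset Pool.Agent.CA31 Pool.Agent.CA72
open scoped Classical

variable {V : Type} {κ : Type}

/-- proper colouring of the vertices in `U` -/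
def PropOn (G : SimpleGraph V) (U : Finset V) (φ : V → κ) : Prop :=
  ∀ u ∈ U, ∀ v ∈ U, G.Adj u v → φ u ≠ φ v

/-- Kempe reachability inside `U` with the colours `a`, `b` -/
def KR (G : SimpleGraph V) (φ : V → κ) (U : Finset V) (a b : κ) (d v : V) : Prop :=
  Relation.ReflTransGen (fun u w => G.Adj u w ∧ w ∈ U ∧ (φ w = a ∨ φ w = b)) d v

theorem KR.col {G : SimpleGraph V} {φ : V → κ} {U : Finset V} {a b : κ} {d v : V}
    (h : KR G φ U a b d v) (hd : φ d = a ∨ φ d = b) : φ v = a ∨ φ v = b := by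
  induction h with
  | refl => exact hd
  | tail _ h2 _ => exact h2.2.2

theorem KR.mem {G : SimpleGraph V} {φ : V → κ} {U : Finset V} {a b : κ} {d v : V}
    (h : KR G φ U a b d v) (hd : d ∈ U) : v ∈ U := by
  induction h with
  | refl => exact hd
  | tail _ h2 _ => exact h2.2.1

theorem KR.step {G : SimpleGraph V} {φ : V → κ} {U : Finset V} {a b : κ} {d u v : V}
    (h : KR G φ U a b d u) (h1 : G.Adj u v) (h2 : v ∈ U) (h3 : φ v = a ∨ φ v = b) :
    KR G φ U a b d v := Relation.ReflTransGen.tail h ⟨h1, h2, h3⟩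

theorem conn_KR (G : SimpleGraph V) (φ : V → κ) (U : Finset V) (a b : κ) (d : V) :
    (G.induce {v | KR G φ U a b d v}).Connected := by
  have hne : Nonempty {v | KR G φ U a b d v} := ⟨⟨d, Relation.ReflTransGen.refl⟩⟩
  have key : ∀ v (hv : KR G φ U a b d v),
      (G.induce {v | KR G φ U a b d v}).Reachable ⟨d, Relation.ReflTransGen.refl⟩ ⟨v, hv⟩ := by
    intro v hv
    induction hv with
    | refl => exact SimpleGraph.Reachable.refl _
    | @tail u w h1 h2 ih =>
      have hadj : (G.induce {v | KR G φ U a b d v}).Adj ⟨u, h1⟩ ⟨w, Relation.ReflTransGen.tail h1 h2⟩ :=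
        h2.1
      exact ih.trans hadj.reachable
  refine SimpleGraph.Connected.mk ?_
  rintro ⟨u, hu⟩ ⟨v, hv⟩
  exact (key u hu).symm.trans (key v hv)

theorem prop_swap {G : SimpleGraph V} {U : Finset V} {φ : V → κ} (hφ : PropOn G U φ)
    (τ : Equiv.Perm κ) (K : Set V)
    (hK : ∀ u ∈ U, u ∈ K → ∀ v ∈ U, v ∉ K → G.Adj u v → φ v ≠ τ (φ u)) :
    PropOn G U (fun v => if v ∈ K then τ (φ v) else φ v) := by
  intro u hu v hv huv
  by_cases h1 : u ∈ K <;> by_cases h2 : v ∈ K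
  · simp only [if_pos h1, if_pos h2]
    exact fun h => hφ u hu v hv huv (τ.injective h)
  · simp only [if_pos h1, if_neg h2]
    exact fun h => hK u hu h1 v hv h2 huv h.symm
  · simp only [if_neg h1, if_pos h2]
    exact fun h => hK v hv h2 u hu h1 huv.symm h
  · simp only [if_neg h1, if_neg h2]
    exact hφ u hu v hv huv

/-- two colourings with the same pattern differ by a permutation of the colours -/
theorem exists_perm [Finite κ] {S : Finset V} {φ ψ : V → κ}
    (h : ∀ s ∈ S, ∀ t ∈ S, (φ s = φ t ↔ ψ s = ψ t)) :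
    ∃ π : Equiv.Perm κ, ∀ s ∈ S, π (φ s) = ψ s := by
  have hch : ∀ x : {x // x ∈ S.image φ}, ∃ s ∈ S, φ s = x.1 := fun x => mem_image.1 x.2
  choose g hg1 hg2 using hch
  obtain ⟨π, hπ⟩ := Equiv.Perm.exists_extending_pair (α := {x // x ∈ S.image φ}) (β := κ)
    (fun x => x.1) (fun x => ψ (g x)) Subtype.val_injective (by
      intro x y hxy
      have := (h _ (hg1 x) _ (hg1 y)).2 hxy
      rw [hg2, hg2] at this
      exact Subtype.ext this)
  refine ⟨π, fun s hs => ?_⟩
  have h1 := hπ ⟨φ s, mem_image_of_mem φ hs⟩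
  simp only at h1
  rw [h1]
  exact (h _ (hg1 _) _ hs).1 (hg2 _)

/-- a separation of `G` whose separator is the union of the two cliques `X`, `Y` -/
structure CutD (G : SimpleGraph V) (X Y O1 O2 : Finset V) : Prop where
  clX : ∀ u ∈ X, ∀ v ∈ X, u ≠ v → G.Adj u v
  clY : ∀ u ∈ Y, ∀ v ∈ Y, u ≠ v → G.Adj u v
  cov : ∀ v, v ∈ X ∨ v ∈ Y ∨ v ∈ O1 ∨ v ∈ O2
  d1 : ∀ v ∈ O1, v ∉ X ∧ v ∉ Y ∧ v ∉ O2
  d2 : ∀ v ∈ O2, v ∉ X ∧ v ∉ Y
  sep : ∀ u ∈ O1, ∀ v ∈ O2, ¬ G.Adj u v
  ne1 : O1.Nonempty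
  ne2 : O2.Nonempty

/-- the matched vertices of `X \ Y` -/
noncomputable def Md (X Y : Finset V) (φ : V → κ) : Finset V :=
  (X \ Y).filter (fun d => ∃ c ∈ Y \ X, φ c = φ d)

theorem mem_Md {X Y : Finset V} {φ : V → κ} {d : V} :
    d ∈ Md X Y φ ↔ (d ∈ X ∧ d ∉ Y) ∧ ∃ c, (c ∈ Y ∧ c ∉ X) ∧ φ c = φ d := by
  unfold Md
  rw [mem_filter, mem_sdiff]
  constructor
  · rintro ⟨h1, c, h2, h3⟩
    exact ⟨h1, c, mem_sdiff.1 h2, h3⟩
  · rintro ⟨h1, c, h2, h3⟩
    exact ⟨h1, c, mem_sdiff.2 h2, h3⟩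

section
variable {G : SimpleGraph V} {X Y O1 O2 : Finset V}

theorem CutD.injX (h : CutD G X Y O1 O2) {φ : V → κ} (hφ : PropOn G (X ∪ Y ∪ O2) φ) {u v : V}
    (hu : u ∈ X) (hv : v ∈ X) (he : φ u = φ v) : u = v := by
  by_contra hne
  exact hφ u (by simp [hu]) v (by simp [hv]) (h.clX u hu v hv hne) he

theorem CutD.injY (h : CutD G X Y O1 O2) {φ : V → κ} (hφ : PropOn G (X ∪ Y ∪ O2) φ) {u v : V}
    (hu : u ∈ Y) (hv : v ∈ Y) (he : φ u = φ v) : u = v := by
  by_contra hne
  exact hφ u (by simp [hu]) v (by simp [hv]) (h.clY u hu v hv hne) he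

/-- links: matched pairs are Kempe-linked through every unused colour -/
theorem CutD.link (h : CutD G X Y O1 O2) {φ : V → κ} (hφ : PropOn G (X ∪ Y ∪ O2) φ)
    (hmin : ∀ φ' : V → κ, PropOn G (X ∪ Y ∪ O2) φ' → (Md X Y φ).card ≤ (Md X Y φ').card)
    {d c : V} (hd : d ∈ X ∧ d ∉ Y) (hc : c ∈ Y ∧ c ∉ X) (he : φ c = φ d) {j : κ}
    (hj : ∀ s ∈ X ∪ Y, φ s ≠ j) : KR G φ (X ∪ Y ∪ O2) (φ d) j d c := by
  by_contra hnot
  obtain ⟨K, hK⟩ : ∃ K : Set V, K = {v | KR G φ (X ∪ Y ∪ O2) (φ d) j d v} := ⟨_, rfl⟩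
  have hdU : d ∈ X ∪ Y ∪ O2 := by simp [hd.1]
  have hP := prop_swap hφ (Equiv.swap (φ d) j) K (by
    intro u hu huK v hv hvK huv hcol
    rw [hK] at huK hvK
    have h1 := KR.col huK (Or.inl rfl)
    apply hvK
    refine KR.step huK huv hv ?_
    rcases h1 with h1 | h1
    · rw [h1, Equiv.swap_apply_left] at hcol
      exact Or.inr hcol
    · rw [h1, Equiv.swap_apply_right] at hcol
      exact Or.inl hcol)
  have hdK : d ∈ K := by
    rw [hK]
    exact Relation.ReflTransGen.refl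
  have hne : ∀ e ∈ X ∪ Y, e ≠ d → e ∉ K := by
    intro e he1 hed heK
    rw [hK] at heK
    rcases KR.col heK (Or.inl rfl) with h1 | h1
    · rcases mem_union.1 he1 with h2 | h2
      · exact hed (h.injX hφ h2 hd.1 h1)
      · have := h.injY hφ h2 hc.1 (h1.trans he.symm)
        subst this
        exact hnot heK
    · exact hj e he1 h1
  have hsub : Md X Y (fun v => if v ∈ K then Equiv.swap (φ d) j (φ v) else φ v) ⊆
      (Md X Y φ).erase d := by
    intro e hemem
    rw [mem_Md] at hemem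
    obtain ⟨h1, c', h2, h3⟩ := hemem
    have hc'd : c' ≠ d := by
      rintro rfl
      exact h2.2 hd.1
    have hc'K : c' ∉ K := hne c' (by simp [h2.1]) hc'd
    simp only [if_neg hc'K] at h3
    by_cases hed : e = d
    · subst hed
      simp only [if_pos hdK, Equiv.swap_apply_left] at h3
      exact absurd h3 (hj c' (by simp [h2.1]))
    · have heK : e ∉ K := hne e (by simp [h1.1]) hed
      simp only [if_neg heK] at h3
      rw [mem_erase, mem_Md]
      exact ⟨hed, h1, c', h2, h3⟩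
  have h4 := hmin _ hP
  have h5 := card_le_card hsub
  have h6 : d ∈ Md X Y φ := mem_Md.2 ⟨hd, c, hc, he⟩
  rw [card_erase_of_mem h6] at h5
  have h7 : 0 < (Md X Y φ).card := card_pos.2 ⟨d, h6⟩
  omega

/-- there are enough unused colours -/
theorem card_Md_le {k : ℕ} {φ : V → Fin k} (hk : (X ∪ Y).card ≤ k) :
    (Md X Y φ).card ≤ (univ \ (X ∪ Y).image φ).card := by
  have h1 : (X ∪ Y).image φ ⊆ ((X ∪ Y) \ Md X Y φ).image φ := by
    intro a ha
    rw [mem_image] at ha
    obtain ⟨s, hs, rfl⟩ := ha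
    by_cases hm : s ∈ Md X Y φ
    · obtain ⟨_, c, hc, he⟩ := mem_Md.1 hm
      rw [mem_image]
      refine ⟨c, ?_, he⟩
      rw [mem_sdiff]
      refine ⟨by simp [hc.1], fun hcm => hc.2 (mem_Md.1 hcm).1.1⟩
    · exact mem_image_of_mem φ (mem_sdiff.2 ⟨hs, hm⟩)
  have h2 := (card_le_card h1).trans card_image_le
  have h3 : Md X Y φ ⊆ X ∪ Y := fun d hd => mem_union_left _ (mem_Md.1 hd).1.1
  rw [card_sdiff_of_subset h3] at h2
  have h4 := card_le_card h3
  rw [card_sdiff_of_subset (subset_univ _), card_univ, Fintype.card_fin]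
  omega

/-- realising a pattern -/
theorem CutD.realise [Finite κ] (h : CutD G X Y O1 O2) {φ : V → κ} (hφ : PropOn G (X ∪ Y ∪ O2) φ) {ψ : V → κ}
    (hψ : PropOn G (X ∪ Y) ψ)
    (h1 : ∀ d c, d ∈ X → d ∉ Y → c ∈ Y → c ∉ X → φ c = φ d → ψ c = ψ d)
    (h2 : ∀ d c, d ∈ X → d ∉ Y → c ∈ Y → c ∉ X → ψ c = ψ d → φ c ≠ φ d →
      ¬ KR G φ (X ∪ Y ∪ O2) (φ d) (φ c) d c) :
    ∃ φ' : V → κ, PropOn G (X ∪ Y ∪ O2) φ' ∧ ∀ s ∈ X ∪ Y, ∀ t ∈ X ∪ Y, (φ' s = φ' t ↔ ψ s = ψ t) := by
  have ψX : ∀ u ∈ X, ∀ v ∈ X, ψ u = ψ v → u = v := by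
    intro u hu v hv he
    by_contra hne
    exact hψ u (by simp [hu]) v (by simp [hv]) (h.clX u hu v hv hne) he
  have ψY : ∀ u ∈ Y, ∀ v ∈ Y, ψ u = ψ v → u = v := by
    intro u hu v hv he
    by_contra hne
    exact hψ u (by simp [hu]) v (by simp [hv]) (h.clY u hu v hv hne) he
  obtain ⟨P, hP⟩ : ∃ P : V → V → Prop, ∀ d c, P d c ↔
      ((d ∈ X ∧ d ∉ Y) ∧ (c ∈ Y ∧ c ∉ X) ∧ ψ c = ψ d ∧ φ c ≠ φ d) := ⟨_, fun d c => Iff.rfl⟩
  have F1 : ∀ d c c', P d c → P d c' → c = c' := by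
    intro d c c' a b
    rw [hP] at a b
    exact ψY c a.2.1.1 c' b.2.1.1 (a.2.2.1.trans b.2.2.1.symm)
  have F2 : ∀ d d' c, P d c → P d' c → d = d' := by
    intro d d' c a b
    rw [hP] at a b
    exact ψX d a.1.1 d' b.1.1 (a.2.2.1.symm.trans b.2.2.1)
  have F5 : ∀ d c d' c', P d c → P d' c' → φ d ≠ φ c' := by
    intro d c d' c' a b he
    rw [hP] at a b
    have e1 := h1 d c' a.1.1 a.1.2 b.2.1.1 b.2.1.2 he.symm
    have e2 := ψY c' b.2.1.1 c a.2.1.1 (e1.trans a.2.2.1.symm)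
    subst e2
    exact a.2.2.2 he.symm
  -- the vertices with a partner
  have hS : ∀ v : {v : V // ∃ w, P v w ∨ P w v}, ∃ w, P v.1 w ∨ P w v.1 := fun v => v.2
  choose pt hpt using hS
  have hinj : ∀ v v' : {v : V // ∃ w, P v w ∨ P w v}, φ v.1 = φ v'.1 → v.1 = v'.1 := by
    intro v v' he
    rcases hpt v with a | a <;> rcases hpt v' with b | b
    · exact h.injX hφ ((hP _ _).1 a).1.1 ((hP _ _).1 b).1.1 he
    · exact absurd he (F5 _ _ _ _ a b)
    · exact absurd he.symm (F5 _ _ _ _ b a)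
    · exact h.injY hφ ((hP _ _).1 a).2.1.1 ((hP _ _).1 b).2.1.1 he
  have hptmem : ∀ v : {v : V // ∃ w, P v w ∨ P w v}, ∃ w, P (pt v) w ∨ P w (pt v) := by
    intro v
    rcases hpt v with a | a
    · exact ⟨v.1, Or.inr a⟩
    · exact ⟨v.1, Or.inl a⟩
  have hFin : Finite {v : V // ∃ w, P v w ∨ P w v} := by
    refine Set.Finite.subset (X ∪ Y).finite_toSet ?_
    rintro v ⟨w, a | a⟩
    · have := ((hP _ _).1 a).1.1
      simp [this]
    · have := ((hP _ _).1 a).2.1.1
      simp [this]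
  obtain ⟨σ, hσ⟩ := Equiv.Perm.exists_extending_pair (α := {v : V // ∃ w, P v w ∨ P w v}) (β := κ)
    (fun v => φ v.1) (fun v => φ (pt v)) (fun v v' he => Subtype.ext (hinj v v' he)) (by
      intro v v' he
      have e1 : pt v = pt v' := hinj ⟨pt v, hptmem v⟩ ⟨pt v', hptmem v'⟩ he
      apply Subtype.ext
      rcases hpt v with a | a <;> rcases hpt v' with b | b
      · rw [e1] at a; exact F2 _ _ _ a b
      · rw [e1] at a
        exact absurd ((hP _ _).1 b).1.2 (fun hn => hn ((hP _ _).1 a).2.1.1)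
      · rw [e1] at a
        exact absurd ((hP _ _).1 a).1.2 (fun hn => hn ((hP _ _).1 b).2.1.1)
      · rw [e1] at a; exact F1 _ _ _ a b)
  have hσd : ∀ d c, P d c → σ (φ d) = φ c := by
    intro d c a
    have e1 := hσ ⟨d, c, Or.inl a⟩
    simp only at e1
    rw [e1]
    rcases hpt ⟨d, c, Or.inl a⟩ with b | b
    · exact congrArg φ (F1 _ _ _ b a)
    · exact absurd ((hP _ _).1 a).1.2 (fun hn => hn ((hP _ _).1 b).2.1.1)
  have hσc : ∀ d c, P d c → σ (φ c) = φ d := by
    intro d c a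
    have e1 := hσ ⟨c, d, Or.inr a⟩
    simp only at e1
    rw [e1]
    rcases hpt ⟨c, d, Or.inr a⟩ with b | b
    · exact absurd ((hP _ _).1 a).2.1.2 (fun hn => hn ((hP _ _).1 b).1.1)
    · exact congrArg φ (F2 _ _ _ b a)
  obtain ⟨K, hK⟩ : ∃ K : Set V, K = {v | ∃ d c, P d c ∧ KR G φ (X ∪ Y ∪ O2) (φ d) (φ c) d v} := ⟨_, rfl⟩
  have hprop := prop_swap hφ σ K (by
    intro u hu huK v hv hvK huv hcol
    rw [hK] at huK hvK
    obtain ⟨d, c, a, b⟩ := huK
    apply hvK
    refine ⟨d, c, a, KR.step b huv hv ?_⟩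
    rcases KR.col b (Or.inl rfl) with e | e
    · rw [e, hσd d c a] at hcol
      exact Or.inr hcol
    · rw [e, hσc d c a] at hcol
      exact Or.inl hcol)
  have hKS : ∀ s ∈ X ∪ Y, s ∈ K → ∃ c, P s c := by
    intro s hs hsK
    rw [hK] at hsK
    obtain ⟨d, c, a, b⟩ := hsK
    have a' := (hP _ _).1 a
    rcases KR.col b (Or.inl rfl) with e | e
    · rcases mem_union.1 hs with hs | hs
      · have := h.injX hφ hs a'.1.1 e
        subst this
        exact ⟨c, a⟩
      · by_cases hsX : s ∈ X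
        · have := h.injX hφ hsX a'.1.1 e
          subst this
          exact absurd hs a'.1.2
        · have e2 := h1 d s a'.1.1 a'.1.2 hs hsX e
          have e3 := ψY s hs c a'.2.1.1 (e2.trans a'.2.2.1.symm)
          subst e3
          exact absurd e a'.2.2.2
    · rcases mem_union.1 hs with hs | hs
      · by_cases hsY : s ∈ Y
        · have := h.injY hφ hsY a'.2.1.1 e
          subst this
          exact absurd hs a'.2.1.2
        · have e2 := h1 s c hs hsY a'.2.1.1 a'.2.1.2 e.symm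
          have e3 := ψX s hs d a'.1.1 (e2.symm.trans a'.2.2.1)
          subst e3
          exact absurd e.symm a'.2.2.2
      · have := h.injY hφ hs a'.2.1.1 e
        subst this
        exact absurd b (h2 d s a'.1.1 a'.1.2 a'.2.1.1 a'.2.1.2 a'.2.2.1 a'.2.2.2)
  obtain ⟨φ', hφ'⟩ : ∃ φ' : V → κ, φ' = fun v => if v ∈ K then σ (φ v) else φ v := ⟨_, rfl⟩
  rw [← hφ'] at hprop
  have v1 : ∀ d c, P d c → φ' d = φ c := by
    intro d c a
    have hdK : d ∈ K := by
      rw [hK]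
      exact ⟨d, c, a, Relation.ReflTransGen.refl⟩
    rw [hφ']
    simp only [if_pos hdK]
    exact hσd d c a
  have v2 : ∀ s ∈ X ∪ Y, (¬ ∃ c, P s c) → φ' s = φ s := by
    intro s hs hn
    have hsK : s ∉ K := fun hc => hn (hKS s hs hc)
    rw [hφ']
    simp only [if_neg hsK]
  refine ⟨φ', hprop, ?_⟩
  -- the cross case
  have cross : ∀ s ∈ X, s ∉ Y → ∀ t ∈ Y, t ∉ X → (φ' s = φ' t ↔ ψ s = ψ t) := by
    intro s hs hsY t ht htX
    have e1 : φ' t = φ t := v2 t (by simp [ht]) (fun ⟨c, a⟩ => htX ((hP _ _).1 a).1.1)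
    by_cases hs2 : ∃ c, P s c
    · obtain ⟨c, a⟩ := hs2
      have a' := (hP _ _).1 a
      rw [v1 s c a, e1]
      constructor
      · intro he
        have := h.injY hφ a'.2.1.1 ht he
        subst this
        exact a'.2.2.1.symm
      · intro he
        have := ψY c a'.2.1.1 t ht (a'.2.2.1.trans he)
        rw [this]
    · rw [v2 s (by simp [hs]) hs2, e1]
      constructor
      · intro he
        exact (h1 s t hs hsY ht htX he.symm).symm
      · intro he
        by_contra hne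
        exact hs2 ⟨t, (hP _ _).2 ⟨⟨hs, hsY⟩, ⟨ht, htX⟩, he.symm, fun h3 => hne h3.symm⟩⟩
  intro s hs t ht
  by_cases hst : s = t
  · rw [hst]
    simp
  by_cases sX : s ∈ X <;> by_cases tX : t ∈ X
  · have hadj := h.clX s sX t tX hst
    exact ⟨fun he => absurd he (hprop s (by simp [sX]) t (by simp [tX]) hadj),
      fun he => absurd he (hψ s hs t ht hadj)⟩
  · have tY : t ∈ Y := by
      rcases mem_union.1 ht with a | a
      · exact absurd a tX
      · exact a
    by_cases sY : s ∈ Y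
    · have hadj := h.clY s sY t tY hst
      exact ⟨fun he => absurd he (hprop s (by simp [sX]) t (by simp [tY]) hadj),
        fun he => absurd he (hψ s hs t ht hadj)⟩
    · exact cross s sX sY t tY tX
  · have sY : s ∈ Y := by
      rcases mem_union.1 hs with a | a
      · exact absurd a sX
      · exact a
    by_cases tY : t ∈ Y
    · have hadj := h.clY s sY t tY hst
      exact ⟨fun he => absurd he (hprop s (by simp [sY]) t (by simp [tY]) hadj),
        fun he => absurd he (hψ s hs t ht hadj)⟩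
    · have := cross t tX tY s sY sX
      rw [eq_comm, this, eq_comm]
  · have sY : s ∈ Y := by
      rcases mem_union.1 hs with a | a
      · exact absurd a sX
      · exact a
    have tY : t ∈ Y := by
      rcases mem_union.1 ht with a | a
      · exact absurd a tX
      · exact a
    have hadj := h.clY s sY t tY hst
    exact ⟨fun he => absurd he (hprop s (by simp [sY]) t (by simp [tY]) hadj),
      fun he => absurd he (hψ s hs t ht hadj)⟩

end

end Pool.Agent.CA5
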