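import Mathlib
import Pool.Agent.CA5.Kempe

/-!
Abstract form of Theorem A: contraction and gluing.
-/

set_option autoImplicit false

namespace Pool.Agent.CA5

open Finset Pool.Agent.CA31 Pool.Agent.CA72
open scoped Classical

variable {V : Type} [Fintype V] {G : SimpleGraph V} {X Y O1 O2 : Finset V} {k : ℕ}

/-- the bags needed for the sets `D` (unmatched in `X`) and `C` (unmatched in `Y`) -/
def HasBags (G : SimpleGraph V) (X Y O2 : Finset V) (φ : V → Fin k) (D C : Finset V) : Prop :=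
  ∃ B : V → Set V,
    (∀ v ∈ D ∪ C, v ∈ B v) ∧
    (∀ v ∈ D ∪ C, ∀ w ∈ B v, w = v ∨ (w ∈ O2 ∧ ∃ u ∈ D ∪ C, φ w = φ u)) ∧
    (∀ v ∈ D ∪ C, (G.induce (B v)).Connected) ∧
    (∀ u ∈ D ∪ C, ∀ v ∈ D ∪ C, u ≠ v → Disjoint (B u) (B v)) ∧
    (∀ d ∈ D, ∀ c ∈ C, KR G φ (X ∪ Y ∪ O2) (φ d) (φ c) d c → ∃ u ∈ B d, ∃ w ∈ B c, G.Adj u w)

omit [Fintype V] in
theorem exists_fin_col {S : Finset V} {v0 : V} (hv0 : v0 ∈ S) (h : ColOn G S k) :
    ∃ φ : V → Fin k, PropOn G S φ := by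
  obtain ⟨ψ, h1, h2⟩ := h
  have hk : 0 < k := lt_of_le_of_lt (Nat.zero_le _) (h1 v0 hv0)
  refine ⟨fun v => if hv : v ∈ S then ⟨ψ v, h1 v hv⟩ else ⟨0, hk⟩, ?_⟩
  intro u hu v hv huv he
  simp only [dif_pos hu, dif_pos hv] at he
  exact h2 u hu v hv huv (congrArg Fin.val he)

theorem cut_abs (h : CutD G X Y O1 O2) (hc : Crit G k) (hcc : ConCrit G k)
    (hbag : ∀ φ : V → Fin k, PropOn G (X ∪ Y ∪ O2) φ → ∀ D C : Finset V, D ⊆ X \ Y → C ⊆ Y \ X →
      (∀ u ∈ D ∪ C, ∀ v ∈ X ∪ Y, φ u = φ v → u = v) → HasBags G X Y O2 φ D C) :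
    k + 1 ≤ (X ∪ Y).card := by
  by_contra hlt
  have hk : (X ∪ Y).card ≤ k := by omega
  obtain ⟨o1, ho1⟩ := h.ne1
  obtain ⟨o2, ho2⟩ := h.ne2
  have hU : (X ∪ Y ∪ O2) ≠ univ := by
    intro he
    have : o1 ∈ X ∪ Y ∪ O2 := by rw [he]; exact mem_univ _
    have h3 := h.d1 o1 ho1
    simp only [mem_union] at this
    tauto
  obtain ⟨φ0, hφ0⟩ := exists_fin_col (v0 := o2) (by simp [ho2]) (hc.2 _ hU)
  obtain ⟨φ, hφmem, hmin0⟩ := Finset.exists_min_image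
    (univ.filter (fun φ : V → Fin k => PropOn G (X ∪ Y ∪ O2) φ)) (fun φ => (Md X Y φ).card)
    ⟨φ0, mem_filter.2 ⟨mem_univ _, hφ0⟩⟩
  have hφ : PropOn G (X ∪ Y ∪ O2) φ := (mem_filter.1 hφmem).2
  have hmin : ∀ φ' : V → Fin k, PropOn G (X ∪ Y ∪ O2) φ' → (Md X Y φ).card ≤ (Md X Y φ').card :=
    fun φ' h' => hmin0 φ' (mem_filter.2 ⟨mem_univ _, h'⟩)
  -- unused colours for the matched vertices
  obtain ⟨ι⟩ : Nonempty ({d // d ∈ Md X Y φ} ↪ {a // a ∈ univ \ (X ∪ Y).image φ}) := by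
    apply Function.Embedding.nonempty_of_card_le
    rw [Fintype.card_coe, Fintype.card_coe]
    exact card_Md_le hk
  have hιun : ∀ (d : {d // d ∈ Md X Y φ}), ∀ s ∈ X ∪ Y, φ s ≠ (ι d).1 := by
    intro d s hs he
    have := (ι d).2
    rw [mem_sdiff] at this
    exact this.2 (he ▸ mem_image_of_mem φ hs)
  -- partners
  have hpt : ∀ d : {d // d ∈ Md X Y φ}, ∃ c, (c ∈ Y ∧ c ∉ X) ∧ φ c = φ d.1 := fun d => (mem_Md.1 d.2).2
  choose pt hpt1 hpt2 using hpt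
  have hd1 : ∀ d : {d // d ∈ Md X Y φ}, d.1 ∈ X ∧ d.1 ∉ Y := fun d => (mem_Md.1 d.2).1
  -- links
  obtain ⟨Lk, hLk⟩ : ∃ Lk : {d // d ∈ Md X Y φ} → Set V, ∀ d, Lk d =
      {v | KR G φ (X ∪ Y ∪ O2) (φ d.1) (ι d).1 d.1 v} := ⟨_, fun _ => rfl⟩
  have hLd : ∀ d, d.1 ∈ Lk d := fun d => by
    rw [hLk]; exact Relation.ReflTransGen.refl
  have hLc : ∀ d, pt d ∈ Lk d := fun d => by
    rw [hLk]
    exact h.link hφ hmin (hd1 d) (hpt1 d) (hpt2 d) (hιun d)
  have hLconn : ∀ d, (G.induce (Lk d)).Connected := fun d => by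
    rw [hLk]; exact conn_KR _ _ _ _ _ _
  have hLcol : ∀ d, ∀ v ∈ Lk d, φ v = φ d.1 ∨ φ v = (ι d).1 := fun d v hv => by
    rw [hLk] at hv
    exact KR.col hv (Or.inl rfl)
  have hLU : ∀ d, ∀ v ∈ Lk d, v ∈ X ∪ Y ∪ O2 := fun d v hv => by
    rw [hLk] at hv
    exact KR.mem hv (by simp [(hd1 d).1])
  have hLS : ∀ d, ∀ v ∈ Lk d, v ∈ X ∪ Y → v = d.1 ∨ v = pt d := by
    intro d v hv hvS
    rcases hLcol d v hv with e | e
    · rcases mem_union.1 hvS with a | a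
      · exact Or.inl (h.injX hφ a (hd1 d).1 e)
      · exact Or.inr (h.injY hφ a (hpt1 d).1 (e.trans (hpt2 d).symm))
    · exact absurd e (hιun d v hvS)
  -- the unmatched vertices
  obtain ⟨Mc, hMc⟩ : ∃ Mc : Finset V, ∀ c, c ∈ Mc ↔ ∃ d, c = pt d :=
    ⟨univ.filter (fun c => ∃ d, c = pt d), fun c => by rw [mem_filter]; simp⟩
  obtain ⟨D, hD⟩ : ∃ D : Finset V, ∀ v, v ∈ D ↔ (v ∈ X ∧ v ∉ Y) ∧ v ∉ Md X Y φ :=
    ⟨(X \ Y) \ Md X Y φ, fun v => by rw [mem_sdiff, mem_sdiff]⟩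
  obtain ⟨C, hC⟩ : ∃ C : Finset V, ∀ v, v ∈ C ↔ (v ∈ Y ∧ v ∉ X) ∧ v ∉ Mc :=
    ⟨(Y \ X) \ Mc, fun v => by rw [mem_sdiff, mem_sdiff]⟩
  have hDC : ∀ u ∈ D ∪ C, ∀ v ∈ X ∪ Y, φ u = φ v → u = v := by
    intro u hu v hv he
    rcases mem_union.1 hu with a | a
    · have a' := (hD u).1 a
      by_cases hvX : v ∈ X
      · exact h.injX hφ a'.1.1 hvX he
      · have hvY : v ∈ Y := by
          rcases mem_union.1 hv with b | b
          · exact absurd b hvX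
          · exact b
        exact absurd (mem_Md.2 ⟨a'.1, v, ⟨hvY, hvX⟩, he.symm⟩) a'.2
    · have a' := (hC u).1 a
      by_cases hvY : v ∈ Y
      · exact h.injY hφ a'.1.1 hvY he
      · have hvX : v ∈ X := by
          rcases mem_union.1 hv with b | b
          · exact b
          · exact absurd b hvY
        have hm : v ∈ Md X Y φ := mem_Md.2 ⟨⟨hvX, hvY⟩, u, a'.1, he⟩
        have e : u = pt ⟨v, hm⟩ := h.injY hφ a'.1.1 (hpt1 _).1 (he.trans (hpt2 ⟨v, hm⟩).symm)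
        exact absurd ((hMc u).2 ⟨_, e⟩) a'.2
  obtain ⟨B, hB1, hB2, hB3, hB4, hB5⟩ := hbag φ hφ D C
    (fun v hv => mem_sdiff.2 ((hD v).1 hv).1) (fun v hv => mem_sdiff.2 ((hC v).1 hv).1) hDC
  -- colours of the bags and of the links
  have hcolM : ∀ (d : {d // d ∈ Md X Y φ}), ∀ u ∈ D ∪ C, φ u ≠ φ d.1 := by
    intro d u hu he
    rcases mem_union.1 hu with a | a
    · have a' := (hD u).1 a
      have := h.injX hφ a'.1.1 (hd1 d).1 he
      exact a'.2 (this ▸ d.2)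
    · have a' := (hC u).1 a
      have := h.injY hφ a'.1.1 (hpt1 d).1 (he.trans (hpt2 d).symm)
      exact a'.2 ((hMc u).2 ⟨d, this⟩)
  have hDCS : ∀ u ∈ D ∪ C, u ∈ X ∪ Y := by
    intro u hu
    rcases mem_union.1 hu with a | a
    · exact mem_union_left _ ((hD u).1 a).1.1
    · exact mem_union_right _ ((hC u).1 a).1.1
  have hBcol : ∀ v ∈ D ∪ C, ∀ w ∈ B v, ∃ u ∈ D ∪ C, φ w = φ u := by
    intro v hv w hw
    rcases hB2 v hv w hw with e | e
    · exact ⟨v, hv, by rw [e]⟩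
    · exact e.2
  have hBL : ∀ v ∈ D ∪ C, ∀ d, Disjoint (B v) (Lk d) := by
    intro v hv d
    rw [Set.disjoint_left]
    intro w hw hwL
    obtain ⟨u, hu, he⟩ := hBcol v hv w hw
    rcases hLcol d w hwL with e | e
    · exact hcolM d u hu (he.symm.trans e)
    · exact hιun d u (hDCS u hu) (he.symm.trans e)
  have hBS : ∀ v ∈ D ∪ C, ∀ w ∈ B v, w ∈ X ∪ Y → w = v := by
    intro v hv w hw hwS
    rcases hB2 v hv w hw with e | e
    · exact e
    · have := h.d2 w e.1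
      rcases mem_union.1 hwS with a | a
      · exact absurd a this.1
      · exact absurd a this.2
  have hBU : ∀ v ∈ D ∪ C, ∀ w ∈ B v, w ∈ X ∪ Y ∪ O2 := by
    intro v hv w hw
    rcases hB2 v hv w hw with e | e
    · rw [e]
      exact mem_union_left _ (hDCS v hv)
    · exact mem_union_right _ e.1
  -- the contraction
  obtain ⟨f, hf⟩ : ∃ f : V → Set V, f = fun v => if hv : v ∈ Md X Y φ then Lk ⟨v, hv⟩ else
      if v ∈ D ∪ C then B v else {v} := ⟨_, rfl⟩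
  have fM : ∀ d : {d // d ∈ Md X Y φ}, f d.1 = Lk d := by
    intro d
    rw [hf]
    simp only [dif_pos d.2]
  have fB : ∀ v ∈ D ∪ C, f v = B v := by
    intro v hv
    have hnm : v ∉ Md X Y φ := by
      intro hm
      exact hcolM ⟨v, hm⟩ v hv rfl
    rw [hf]
    simp only [dif_neg hnm, if_pos hv]
  have fS : ∀ v, v ∉ Md X Y φ → v ∉ D ∪ C → f v = {v} := by
    intro v h1 h2
    rw [hf]
    simp only [dif_neg h1, if_neg h2]
  have hself : ∀ v, v ∈ f v := by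
    intro v
    by_cases h1 : v ∈ Md X Y φ
    · rw [fM ⟨v, h1⟩]; exact hLd ⟨v, h1⟩
    · by_cases h2 : v ∈ D ∪ C
      · rw [fB v h2]; exact hB1 v h2
      · rw [fS v h1 h2]; exact rfl
  obtain ⟨Wd, hWd⟩ : ∃ Wd : V → Prop, ∀ v, Wd v ↔ ((v ∈ X ∨ v ∈ Y ∨ v ∈ O1) ∧ v ∉ Mc) :=
    ⟨_, fun v => Iff.rfl⟩
  have fconn : ∀ v, (G.induce (f v)).Connected := by
    intro v
    by_cases h1 : v ∈ Md X Y φ
    · rw [fM ⟨v, h1⟩]; exact hLconn ⟨v, h1⟩
    · by_cases h2 : v ∈ D ∪ C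
      · rw [fB v h2]; exact hB3 v h2
      · rw [fS v h1 h2]; exact singleton_conn G v
  -- which Wd-vertices lie in which bag
  have fin1 : ∀ v, Wd v → ∀ w, Wd w → w ∈ f v → w = v := by
    intro v hv w hw hwf
    rw [hWd] at hv hw
    by_cases h1 : v ∈ Md X Y φ
    · rw [fM ⟨v, h1⟩] at hwf
      have hwU := hLU ⟨v, h1⟩ w hwf
      have hwS : w ∈ X ∪ Y := by
        rcases hw.1 with a | a | a
        · simp [a]
        · simp [a]
        · have := h.d1 w a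
          simp only [mem_union] at hwU
          tauto
      rcases hLS ⟨v, h1⟩ w hwf hwS with e | e
      · exact e
      · exact absurd ((hMc w).2 ⟨_, e⟩) hw.2
    · by_cases h2 : v ∈ D ∪ C
      · rw [fB v h2] at hwf
        have hwU := hBU v h2 w hwf
        have hwS : w ∈ X ∪ Y := by
          rcases hw.1 with a | a | a
          · simp [a]
          · simp [a]
          · have := h.d1 w a
            simp only [mem_union] at hwU
            tauto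
        exact hBS v h2 w hwf hwS
      · rw [fS v h1 h2] at hwf
        exact hwf
  have fdis : ∀ v, Wd v → ∀ w, Wd w → v ≠ w → Disjoint (f v) (f w) := by
    intro v hv w hw hne
    by_cases h1 : v ∈ Md X Y φ <;> by_cases h2 : w ∈ Md X Y φ
    · rw [fM ⟨v, h1⟩, fM ⟨w, h2⟩, Set.disjoint_left]
      intro z hz hz'
      rcases hLcol _ z hz with e | e <;> rcases hLcol _ z hz' with e' | e'
      · exact hne (h.injX hφ (hd1 ⟨v, h1⟩).1 (hd1 ⟨w, h2⟩).1 (e.symm.trans e'))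
      · exact hιun ⟨w, h2⟩ v (by simp [(hd1 ⟨v, h1⟩).1]) (e.symm.trans e')
      · exact hιun ⟨v, h1⟩ w (by simp [(hd1 ⟨w, h2⟩).1]) (e'.symm.trans e)
      · have : ι ⟨v, h1⟩ = ι ⟨w, h2⟩ := Subtype.ext (e.symm.trans e')
        exact hne (congrArg Subtype.val (ι.injective this))
    · by_cases h3 : w ∈ D ∪ C
      · rw [fM ⟨v, h1⟩, fB w h3]
        exact (hBL w h3 _).symm
      · rw [fS w h2 h3, Set.disjoint_singleton_right]
        exact fun hc => hne (fin1 v hv w hw hc).symm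
    · by_cases h3 : v ∈ D ∪ C
      · rw [fM ⟨w, h2⟩, fB v h3]
        exact hBL v h3 _
      · rw [fS v h1 h3, Set.disjoint_singleton_left]
        exact fun hc => hne (fin1 w hw v hv hc)
    · by_cases h3 : v ∈ D ∪ C
      · by_cases h4 : w ∈ D ∪ C
        · rw [fB v h3, fB w h4]
          exact hB4 v h3 w h4 hne
        · rw [fS w h2 h4, Set.disjoint_singleton_right]
          exact fun hc => hne (fin1 v hv w hw hc).symm
      · rw [fS v h1 h3, Set.disjoint_singleton_left]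
        exact fun hc => hne (fin1 w hw v hv hc)
  have hcard : Fintype.card {v // Wd v} < Fintype.card V := by
    refine Fintype.card_lt_of_injective_of_notMem (fun v : {v // Wd v} => v.1) Subtype.val_injective
      (b := o2) ?_
    rintro ⟨⟨v, hv⟩, rfl⟩
    rw [hWd] at hv
    have h3 := h.d2 _ ho2
    rcases hv.1 with a | a | a
    · exact h3.1 a
    · exact h3.2 a
    · exact (h.d1 _ a).2.2 ho2
  obtain ⟨ψ0⟩ := hcc {v // Wd v} (fun v => f v.1) (fun v => fconn v.1)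
    (fun v w hne => fdis v.1 v.2 w.1 w.2 (fun he => hne (Subtype.ext he))) hcard
  -- representatives
  have hrep : ∀ v, (v ∈ X ∨ v ∈ Y ∨ v ∈ O1) → ∃ w : {v // Wd v}, v ∈ f w.1 ∧
      (w.1 = v ∨ ∃ d, v = pt d ∧ w.1 = d.1) := by
    intro v hv
    by_cases hm : v ∈ Mc
    · obtain ⟨d, hd⟩ := (hMc v).1 hm
      have hdW : Wd d.1 := by
        rw [hWd]
        refine ⟨Or.inl (hd1 d).1, fun hc => ?_⟩
        obtain ⟨d', hd'⟩ := (hMc _).1 hc
        exact (hd1 d).2 (hd' ▸ (hpt1 d').1)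
      refine ⟨⟨d.1, hdW⟩, ?_, Or.inr ⟨d, hd, rfl⟩⟩
      rw [fM d, hd]
      exact hLc d
    · exact ⟨⟨v, (hWd v).2 ⟨hv, hm⟩⟩, hself v, Or.inl rfl⟩
  have hk0 : 0 < k := lt_of_le_of_lt (Nat.zero_le _) (φ o2).2
  have ho1W : Wd o1 := by
    rw [hWd]
    refine ⟨Or.inr (Or.inr ho1), fun hc => ?_⟩
    obtain ⟨d, hd⟩ := (hMc _).1 hc
    exact (h.d1 o1 ho1).2.1 (hd ▸ (hpt1 d).1)
  have hrep' : ∀ v, ∃ w : {v // Wd v}, (v ∈ X ∨ v ∈ Y ∨ v ∈ O1) → (v ∈ f w.1 ∧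
      (w.1 = v ∨ ∃ d, v = pt d ∧ w.1 = d.1)) := by
    intro v
    by_cases hv : v ∈ X ∨ v ∈ Y ∨ v ∈ O1
    · obtain ⟨w, hw⟩ := hrep v hv
      exact ⟨w, fun _ => hw⟩
    · exact ⟨⟨o1, ho1W⟩, fun h' => absurd h' hv⟩
  choose rp hrp using hrep'
  have hrp1 := fun v hv => (hrp v hv).1
  have hrp2 := fun v hv => (hrp v hv).2
  obtain ⟨ψ, hψdef⟩ : ∃ ψ : V → Fin k, ∀ v, ψ v = ψ0 (rp v) := ⟨_, fun _ => rfl⟩
  have hψ1 : ∀ u v, (u ∈ X ∨ u ∈ Y ∨ u ∈ O1) → (v ∈ X ∨ v ∈ Y ∨ v ∈ O1) → G.Adj u v → ψ u ≠ ψ v := by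
    intro u v hu hv huv
    rw [hψdef, hψdef]
    by_cases hr : rp u = rp v
    · exfalso
      rcases hrp2 u hu with a | ⟨d, a1, a2⟩ <;> rcases hrp2 v hv with b | ⟨d', b1, b2⟩
      · exact huv.ne (a.symm.trans ((congrArg Subtype.val hr).trans b))
      · have e : u = d'.1 := a.symm.trans ((congrArg Subtype.val hr).trans b2)
        exact hφ u (by simp [e, (hd1 d').1]) v (by simp [b1, (hpt1 d').1]) huv
          (by rw [e, b1, hpt2 d'])
      · have e : v = d.1 := b.symm.trans ((congrArg Subtype.val hr).symm.trans a2)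
        exact hφ u (by simp [a1, (hpt1 d).1]) v (by simp [e, (hd1 d).1]) huv
          (by rw [e, a1, hpt2 d])
      · have e : d = d' := Subtype.ext (a2.symm.trans ((congrArg Subtype.val hr).trans b2))
        exact huv.ne (a1.trans (e ▸ b1.symm))
    · refine ψ0.valid ?_
      rw [QG_adj]
      exact ⟨hr, u, hrp1 u hu, v, hrp1 v hv, huv⟩
  have hψY : ∀ u ∈ Y, ∀ v ∈ Y, ψ u = ψ v → u = v := by
    intro u hu v hv he
    by_contra hne
    exact hψ1 u v (Or.inr (Or.inl hu)) (Or.inr (Or.inl hv)) (h.clY u hu v hv hne) he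
  have hψX : ∀ u ∈ X, ∀ v ∈ X, ψ u = ψ v → u = v := by
    intro u hu v hv he
    by_contra hne
    exact hψ1 u v (Or.inl hu) (Or.inl hv) (h.clX u hu v hv hne) he
  -- representatives of X and of unmatched vertices
  have rpX : ∀ d, d ∈ X → (rp d).1 = d := by
    intro d hd
    rcases hrp2 d (Or.inl hd) with a | ⟨d', a1, a2⟩
    · exact a
    · exact absurd hd (a1 ▸ (hpt1 d').2)
  have rpM : ∀ d : {d // d ∈ Md X Y φ}, rp (pt d) = rp d.1 := by
    intro d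
    apply Subtype.ext
    rw [rpX d.1 (hd1 d).1]
    rcases hrp2 (pt d) (Or.inr (Or.inl (hpt1 d).1)) with a | ⟨d', a1, a2⟩
    · have := (hWd _).1 (rp (pt d)).2
      rw [a] at this
      exact absurd ((hMc _).2 ⟨d, rfl⟩) this.2
    · rw [a2]
      have e : φ d'.1 = φ d.1 := by rw [← hpt2 d', ← hpt2 d, a1]
      exact h.injX hφ (hd1 d').1 (hd1 d).1 e
  have rpC : ∀ c, c ∈ Y → c ∉ Mc → (rp c).1 = c := by
    intro c hc hcM
    rcases hrp2 c (Or.inr (Or.inl hc)) with a | ⟨d', a1, a2⟩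
    · exact a
    · exact absurd ((hMc _).2 ⟨d', a1⟩) hcM
  have hr1 : ∀ d c, d ∈ X → d ∉ Y → c ∈ Y → c ∉ X → φ c = φ d → ψ c = ψ d := by
    intro d c hdX hdY hcY hcX he
    have hdM : d ∈ Md X Y φ := mem_Md.2 ⟨⟨hdX, hdY⟩, c, ⟨hcY, hcX⟩, he⟩
    have hcp : c = pt ⟨d, hdM⟩ := h.injY hφ hcY (hpt1 _).1 (he.trans (hpt2 ⟨d, hdM⟩).symm)
    rw [hψdef, hψdef, hcp, rpM]
  obtain ⟨φ', hφ', hpat⟩ := h.realise hφ (ψ := ψ) (by
    intro u hu v hv huv
    refine hψ1 u v ?_ ?_ huv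
    · rcases mem_union.1 hu with a | a
      · exact Or.inl a
      · exact Or.inr (Or.inl a)
    · rcases mem_union.1 hv with a | a
      · exact Or.inl a
      · exact Or.inr (Or.inl a)) hr1 (by
    intro d c hdX hdY hcY hcX hψe hφe hKR
    have hdD : d ∈ D := by
      rw [hD]
      refine ⟨⟨hdX, hdY⟩, fun hm => ?_⟩
      have e1 := hr1 d (pt ⟨d, hm⟩) hdX hdY (hpt1 ⟨d, hm⟩).1 (hpt1 ⟨d, hm⟩).2 (hpt2 ⟨d, hm⟩)
      have e2 := hψY _ (hpt1 ⟨d, hm⟩).1 c hcY (e1.trans hψe.symm)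
      exact hφe (e2 ▸ hpt2 ⟨d, hm⟩)
    have hcC : c ∈ C := by
      rw [hC]
      refine ⟨⟨hcY, hcX⟩, fun hm => ?_⟩
      obtain ⟨d', hd'⟩ := (hMc c).1 hm
      have e1 := hr1 d'.1 c (hd1 d').1 (hd1 d').2 hcY hcX (hd' ▸ hpt2 d')
      have e2 := hψX _ (hd1 d').1 d hdX (e1.symm.trans hψe)
      apply hφe
      rw [hd', hpt2 d', e2]
    obtain ⟨u, hu, w, hw, huw⟩ := hB5 d hdD c hcC hKR
    have hne : rp d ≠ rp c := by
      intro he
      have := congrArg Subtype.val he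
      rw [rpX d hdX, rpC c hcY ((hC c).1 hcC).2] at this
      exact hdY (this ▸ hcY)
    have hadj : (QG G (fun v : {v // Wd v} => f v.1)).Adj (rp d) (rp c) := by
      rw [QG_adj]
      refine ⟨hne, u, ?_, w, ?_, huw⟩
      · rw [rpX d hdX, fB d (mem_union_left _ hdD)]
        exact hu
      · rw [rpC c hcY ((hC c).1 hcC).2, fB c (mem_union_right _ hcC)]
        exact hw
    have := ψ0.valid hadj
    rw [hψdef, hψdef] at hψe
    exact this hψe.symm)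
  obtain ⟨π, hπ⟩ := exists_perm hpat
  apply hc.1
  have hπ' : ∀ s, (s ∈ X ∨ s ∈ Y) → π (φ' s) = ψ s := fun s hs => hπ s (mem_union.2 hs)
  refine ⟨fun v => if v ∈ O1 then (ψ v : ℕ) else (π (φ' v) : ℕ), ?_, ?_⟩
  · intro v _
    by_cases hv : v ∈ O1
    · simp only [if_pos hv]; exact (ψ v).2
    · simp only [if_neg hv]; exact (π (φ' v)).2
  · have cr : ∀ u v, u ∈ O1 → v ∉ O1 → G.Adj u v → (ψ u : ℕ) ≠ (π (φ' v) : ℕ) := by
      intro u v hu hv huv he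
      have hvS : v ∈ X ∨ v ∈ Y := by
        rcases h.cov v with a | a | a | a
        · exact Or.inl a
        · exact Or.inr a
        · exact absurd a hv
        · exact absurd huv (h.sep u hu v a)
      rw [hπ' v hvS] at he
      refine hψ1 u v (Or.inr (Or.inr hu)) ?_ huv (Fin.ext he)
      rcases hvS with a | a
      · exact Or.inl a
      · exact Or.inr (Or.inl a)
    have mU : ∀ v, v ∉ O1 → v ∈ X ∪ Y ∪ O2 := by
      intro v hv
      have := h.cov v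
      simp only [mem_union]
      tauto
    intro u _ v _ huv
    by_cases hu : u ∈ O1 <;> by_cases hv : v ∈ O1
    · simp only [if_pos hu, if_pos hv]
      exact fun he => hψ1 u v (Or.inr (Or.inr hu)) (Or.inr (Or.inr hv)) huv (Fin.ext he)
    · simp only [if_pos hu, if_neg hv]
      exact cr u v hu hv huv
    · simp only [if_neg hu, if_pos hv]
      exact fun he => cr v u hv hu huv.symm he.symm
    · simp only [if_neg hu, if_neg hv]
      exact fun he => hφ' u (mU u hu) v (mU v hv) huv (π.injective (Fin.ext he))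

end Pool.Agent.CA5
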