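import Mathlib
import Pool.Agent.CA5.CutAbs
import Pool.Agent.CA5.Bags

/-!
Theorem A (helper64): in a contraction-critical circular-arc graph with chromatic number `k + 1`, the arcs through two far
positions are at least `k + 1` in number.
-/

set_option autoImplicit false

namespace Pool.Agent.CA5

open Finset Pool.Agent.CA31 Pool.Agent.CA72 Pool.Agent.CA
open scoped Classical

variable {V : Type} [Fintype V] {G : SimpleGraph V} {M : Model V} {k : ℕ}

theorem thmA (hG : M.IsModelOf G) (hc : Crit G k) (hcc : ConCrit G k) {x y : ℕ} (hxy : x ≤ y)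
    (hfar : Far M x y) : k + 1 ≤ (AU M x y).card := by
  obtain ⟨⟨z1, hz1⟩, z2, hz2⟩ := hfar
  obtain ⟨X, hX⟩ : ∃ X : Finset V, ∀ v, v ∈ X ↔ M.Mem v x :=
    ⟨univ.filter (fun v => M.Mem v x), fun v => by simp⟩
  obtain ⟨Y, hY⟩ : ∃ Y : Finset V, ∀ v, v ∈ Y ↔ M.Mem v y :=
    ⟨univ.filter (fun v => M.Mem v y), fun v => by simp⟩
  obtain ⟨O2, hO2⟩ : ∃ O2 : Finset V, ∀ v, v ∈ O2 ↔ (x ≤ M.o v ∧ M.o v < M.c v ∧ M.c v < y) :=
    ⟨univ.filter (fun v => x ≤ M.o v ∧ M.o v < M.c v ∧ M.c v < y), fun v => by simp⟩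
  obtain ⟨O1, hO1⟩ : ∃ O1 : Finset V, ∀ v, v ∈ O1 ↔ (v ∉ X ∧ v ∉ Y ∧ v ∉ O2) :=
    ⟨univ.filter (fun v => v ∉ X ∧ v ∉ Y ∧ v ∉ O2), fun v => by simp⟩
  have hAU : AU M x y = X ∪ Y := by
    ext v
    rw [mem_AU, mem_union, hX, hY]
  have hin : ∀ v ∈ O2, ∀ t, M.Mem v t → x < t ∧ t < y ∧ M.o v < t ∧ t ≤ M.c v := by
    intro v hv t ht
    rw [hO2] at hv
    unfold Model.Mem at ht
    omega
  have hcut : CutD G X Y O1 O2 := by
    refine ⟨?_, ?_, ?_, ?_, ?_, ?_, ?_, ?_⟩
    · intro u hu v hv hne
      exact Model.adj_of_mem hG hne ((hX u).1 hu) ((hX v).1 hv)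
    · intro u hu v hv hne
      exact Model.adj_of_mem hG hne ((hY u).1 hu) ((hY v).1 hv)
    · intro v
      rw [hO1]
      tauto
    · intro v hv
      exact (hO1 v).1 hv
    · intro v hv
      rw [hX, hY]
      exact ⟨fun h => by have := hin v hv x h; omega, fun h => by have := hin v hv y h; omega⟩
    · intro u hu v hv huv
      obtain ⟨_, t, h1, h2⟩ := (hG u v).1 huv
      have h3 := hin v hv t h2
      rw [hO1, hX, hY, hO2] at hu
      unfold Model.Mem at hu h1
      omega
    · refine ⟨z1, ?_⟩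
      have e1 := hz1 x le_rfl hxy
      have e2 := hz1 y hxy le_rfl
      have e3 := hz1 (M.c z1)
      rw [hO1, hX, hY, hO2]
      refine ⟨e1, e2, fun h => ?_⟩
      apply e3 (by omega) (by omega)
      unfold Model.Mem
      omega
    · refine ⟨z2, ?_⟩
      rw [hO2]
      have e0 := hz2 0 (Or.inl (Nat.zero_le _))
      have e1 := hz2 (M.o z2 + 1)
      have e2 := hz2 (M.c z2)
      have e3 := M.o_ne_c z2 z2
      unfold Model.Mem at e0 e1 e2
      omega
  rw [hAU]
  refine cut_abs hcut hc hcc ?_
  intro φ hφ D C hD hC hinj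
  have hD' : ∀ v ∈ D, M.Mem v x ∧ ¬ M.Mem v y := by
    intro v hv
    have := mem_sdiff.1 (hD hv)
    rw [hX, hY] at this
    exact this
  have hC' : ∀ v ∈ C, M.Mem v y ∧ ¬ M.Mem v x := by
    intro v hv
    have := mem_sdiff.1 (hC hv)
    rw [hX, hY] at this
    exact this
  have hO' : ∀ v ∈ O2, ¬ M.Mem v x ∧ ¬ M.Mem v y := by
    intro v hv
    have := hcut.d2 v hv
    rw [hX, hY] at this
    exact this
  obtain ⟨l, hl⟩ : ∃ l : V → ℕ, l = fun v => if M.Mem v x then x else M.o v + 1 := ⟨_, rfl⟩
  obtain ⟨r, hr⟩ : ∃ r : V → ℕ, r = fun v => if M.Mem v y then y else M.c v := ⟨_, rfl⟩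
  have lx : ∀ v, M.Mem v x → l v = x := fun v hv => by rw [hl]; simp only [if_pos hv]
  have lo : ∀ v, ¬ M.Mem v x → l v = M.o v + 1 := fun v hv => by rw [hl]; simp only [if_neg hv]
  have ry : ∀ v, M.Mem v y → r v = y := fun v hv => by rw [hr]; simp only [if_pos hv]
  have rc : ∀ v, ¬ M.Mem v y → r v = M.c v := fun v hv => by rw [hr]; simp only [if_neg hv]
  have fD : ∀ v ∈ D, l v = x ∧ r v = M.c v ∧ x ≤ M.c v ∧ M.c v < y := by
    intro v hv
    have h1 := hD' v hv
    refine ⟨lx v h1.1, rc v h1.2, ?_⟩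
    obtain ⟨h2, h3⟩ := h1
    unfold Model.Mem at h2 h3
    omega
  have fC : ∀ v ∈ C, l v = M.o v + 1 ∧ r v = y ∧ x ≤ M.o v ∧ M.o v < y := by
    intro v hv
    have h1 := hC' v hv
    refine ⟨lo v h1.2, ry v h1.1, ?_⟩
    obtain ⟨h2, h3⟩ := h1
    unfold Model.Mem at h2 h3
    omega
  have fO : ∀ v ∈ O2, l v = M.o v + 1 ∧ r v = M.c v ∧ x ≤ M.o v ∧ M.o v < M.c v ∧ M.c v < y := by
    intro v hv
    have h1 := hO' v hv
    exact ⟨lo v h1.1, rc v h1.2, (hO2 v).1 hv⟩
  have hmem : ∀ v ∈ D ∪ C ∪ O2, ∀ t, x ≤ t → t ≤ y → (M.Mem v t ↔ l v ≤ t ∧ t ≤ r v) := by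
    intro v hv t ht1 ht2
    rcases mem_union.1 hv with h1 | h1
    · rcases mem_union.1 h1 with h2 | h2
      · have h3 := fD v h2
        have h4 := hD' v h2
        rw [h3.1, h3.2.1]
        obtain ⟨h5, h6⟩ := h4
        unfold Model.Mem at h5 h6 ⊢
        omega
      · have h3 := fC v h2
        have h4 := hC' v h2
        rw [h3.1, h3.2.1]
        obtain ⟨h5, h6⟩ := h4
        unfold Model.Mem at h5 h6 ⊢
        omega
    · have h3 := fO v h1
      rw [h3.1, h3.2.1]
      unfold Model.Mem
      omega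
  have hrange : ∀ v ∈ D ∪ C ∪ O2, x ≤ l v ∧ r v ≤ y := by
    intro v hv
    rcases mem_union.1 hv with h1 | h1
    · rcases mem_union.1 h1 with h2 | h2
      · have h3 := fD v h2
        omega
      · have h3 := fC v h2
        omega
    · have h3 := fO v h1
      omega
  have hsubU : ∀ v ∈ D ∪ C ∪ O2, v ∈ X ∪ Y ∪ O2 := by
    intro v hv
    rcases mem_union.1 hv with h1 | h1
    · rcases mem_union.1 h1 with h2 | h2
      · simp [(hX v).2 (hD' v h2).1]
      · simp [(hY v).2 (hC' v h2).1]
    · exact mem_union_right _ h1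
  have hsubS : ∀ v ∈ D ∪ C, v ∈ X ∪ Y := by
    intro v hv
    rcases mem_union.1 hv with h2 | h2
    · simp [(hX v).2 (hD' v h2).1]
    · simp [(hY v).2 (hC' v h2).1]
  have hstrip : Strip G l r (fun v => (φ v : ℕ)) D C O2 x y := by
    refine ⟨?_, ?_, ?_, ?_, ?_, ?_, ?_, ?_, ?_, ?_, ?_, ?_⟩
    · rw [Finset.disjoint_left]
      intro v h1 h2
      exact (hD' v h1).2 (hC' v h2).1
    · rw [Finset.disjoint_left]
      intro v h1 h2
      exact (hO' v h2).1 (hD' v h1).1
    · rw [Finset.disjoint_left]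
      intro v h1 h2
      exact (hO' v h2).2 (hC' v h1).1
    · exact fun v hv => (fD v hv).1
    · intro v hv
      have := fD v hv
      omega
    · intro v hv
      have := fC v hv
      omega
    · exact fun v hv => (fC v hv).2.1
    · intro v hv
      have := fO v hv
      omega
    · intro u hu v hv
      have h1 : r u = M.c u := by
        rcases mem_union.1 hu with a | a
        · exact (fD u a).2.1
        · exact (fO u a).2.1
      have h2 : l v = M.o v + 1 := by
        rcases mem_union.1 hv with a | a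
        · exact (fC v a).1
        · exact (fO v a).1
      have h3 := M.o_ne_c v u
      omega
    · intro u hu v hv hne t h1 h2 h3 h4
      have h5 := hrange u hu
      have h6 := hrange v hv
      exact Model.adj_of_mem hG hne ((hmem u hu t (by omega) (by omega)).2 ⟨h1, h2⟩)
        ((hmem v hv t (by omega) (by omega)).2 ⟨h3, h4⟩)
    · intro u hu v hv huv he
      exact hφ u (hsubU u hu) v (hsubU v hv) huv (Fin.ext he)
    · intro u hu v hv he
      exact hinj u hu v (hsubS v hv) (Fin.ext he)
  obtain ⟨B, b1, b2, b3, b4, b5⟩ := bags hstrip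
  refine ⟨B, b1, ?_, b3, b4, ?_⟩
  · intro v hv w hw
    rcases b2 v hv w hw with h1 | ⟨h1, u, h2, h3⟩
    · exact Or.inl h1
    · exact Or.inr ⟨h1, u, h2, Fin.ext h3⟩
  · intro d hd c hc' hKR
    by_cases hadj : G.Adj d c
    · exact ⟨d, b1 d (mem_union_left _ hd), c, b1 c (mem_union_right _ hc'), hadj⟩
    · apply b5 d hd c hc'
      intro t ht1 ht2
      by_contra hno
      have hno' : ∀ w ∈ D ∪ C ∪ O2, (φ w = φ d ∨ φ w = φ c) → l w ≤ t → r w < t := by
        intro w hw hcol h1
        by_contra h2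
        refine hno ⟨w, hw, ?_, h1, by omega⟩
        rcases hcol with e | e
        · exact Or.inl (congrArg Fin.val e)
        · exact Or.inr (congrArg Fin.val e)
      have hdU : d ∈ D ∪ C ∪ O2 := mem_union_left _ (mem_union_left _ hd)
      have hcU : c ∈ D ∪ C ∪ O2 := mem_union_left _ (mem_union_right _ hc')
      have hfd := fD d hd
      have hfc := fC c hc'
      have hrd : r d < t := hno' d hdU (Or.inl rfl) (by omega)
      have hlc : t < l c := by
        by_contra h1
        have := hno' c hcU (Or.inr rfl) (by omega)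
        omega
      have key : ∀ v, KR G φ (X ∪ Y ∪ O2) (φ d) (φ c) d v → (v = d ∨ (v ∈ O2 ∧ r v < t)) := by
        intro v hv
        induction hv with
        | refl => exact Or.inl rfl
        | @tail u w _ h2 ih =>
          obtain ⟨huw, hwU, hcol⟩ := h2
          have hw3 : w = d ∨ w = c ∨ w ∈ O2 := by
            rcases mem_union.1 hwU with a | a
            · rcases hcol with e | e
              · exact Or.inl (hinj d (mem_union_left _ hd) w a e.symm).symm
              · exact Or.inr (Or.inl (hinj c (mem_union_right _ hc') w a e.symm).symm)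
            · exact Or.inr (Or.inr a)
          obtain ⟨_, p, hp1, hp2⟩ := (hG u w).1 huw
          rcases hw3 with e | e | e
          · exact Or.inl e
          · exfalso
            rcases ih with e' | ⟨e', e2⟩
            · rw [e, e'] at huw
              exact hadj huw
            · have h5 := hin u e' p hp1
              have h6 := (hmem u (mem_union_right _ e') p (by omega) (by omega)).1 hp1
              rw [e] at hp2
              have h7 := (hmem c hcU p (by omega) (by omega)).1 hp2
              omega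
          · refine Or.inr ⟨e, ?_⟩
            have h5 := hin w e p hp2
            have h6 := (hmem w (mem_union_right _ e) p (by omega) (by omega)).1 hp2
            apply hno' w (mem_union_right _ e) hcol
            rcases ih with e' | ⟨e', e2⟩
            · rw [e'] at hp1
              have h7 := (hmem d hdU p (by omega) (by omega)).1 hp1
              omega
            · have h7 := (hmem u (mem_union_right _ e') p (by omega) (by omega)).1 hp1
              omega
      rcases key c hKR with e | e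
      · exact (hC' c hc').2 (e ▸ (hD' d hd).1)
      · exact (hO' c e.1).2 (hC' c hc').1

end Pool.Agent.CA5
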